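import Pool.Agent.H497.GR.Main

/-!
# Exact averages of periods over pairs of automorphic forms

`F` totally real, `E = F` or `E` a CM extension of `F`, `V = E^n` with a symmetric (hermitian) form which is definite at all
infinite places, `e ∈ V` nonzero, `W = e^⊥`. The squares of the periods of all pairs of automorphic forms on `G(V)` and `G(W)` of
given weights and level, weighted by Hecke eigenvalues on both groups, have exactly the mean value
`mass · dim ρ' · ∫_{G(W)(𝔸)} κ(y) κ'(y⁻¹) dy` in the stable range.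
-/

set_option autoImplicit false

open Pool.Agent.H497.GP

namespace Pool.Agent.Results.MP_f4c338_nt.PairAverages

theorem result (P : DefPair) (hI : P.Integral) (N : ℕ) (hN : 0 < N) :
    (∀ D₁ D₂ : ℕ, P.Range2 N D₁ D₂ → ∀ K : Subgroup P.G, P.Bounded K →
      ∀ (S : Set P.G) (S' : Set P.H), Reps P.j K S → Reps P.jH (P.KW K) S' → S'.Finite →
      ∀ (W : Wt P.Γ) (W' : Wt P.Δ), FiniteDimensional ℂ W'.U → ∀ η : Emb W W',
      ∀ (ι : Type) (φ : ι → P.G → W.U), P.BasisV W K S φ →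
      ∀ (ι' : Type) [Fintype ι'] (φ' : ι' → P.H → W'.U), P.BasisW W' K S' φ' →
      ∀ (κ : P.G → ℂ) (κ' : P.H → ℂ), P.Test N D₁ D₂ K κ κ' →
        DefPair.Mean K S' η φ φ' κ κ' ∧ DefPair.MeanEig K S' η φ φ' κ κ') ∧
    (4 * P.n < N ^ 2 → ∀ S' : Set P.H, S'.Finite → P.mass (P.KN N) S' = (S'.ncard : ℂ)) :=
  ⟨fun D₁ D₂ h K hK S S' hS hS' hfin W W' hf η ι φ hφ ι' _ φ' hφ' κ κ' ht =>
    haveI := hf
    pair_main P hI N D₁ D₂ hN h.pos₁ h.pos₂ h.cop₁ h.cop₂ h.small h.small' K hK S S' hS hS' hfin W.U W'.U W.ρ W'.ρ η.η η.eq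
      ι φ hφ ι' φ' hφ' κ ht.hecke ht.level κ' ht.hecke' ht.level',
  fun hn S' hfin => mass_KN P N hN hn S' hfin⟩

end Pool.Agent.Results.MP_f4c338_nt.PairAverages
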